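import Pool.Agent.helper83.LS.Spec

/-! SY of project ls (MP_60c1a7_co): the top `k` points. -/

set_option autoImplicit false

namespace LSH

theorem SY : SY_stmt := by
  intro S k hG
  induction k with
  | zero =>
    intro _
    exact ⟨∅, Finset.empty_subset _, rfl, fun q hq => absurd hq (Finset.notMem_empty q)⟩
  | succ k ih =>
    intro hk
    obtain ⟨Q, hQS, hQk, hQ⟩ := ih (Nat.le_of_succ_le hk)
    have hne : (S \ Q).Nonempty := by
      rw [← Finset.card_pos, Finset.card_sdiff_of_subset hQS]
      omega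
    obtain ⟨m, hm, hmax⟩ := Finset.exists_max_image (S \ Q) (fun z : Pt => z.2) hne
    have hmS := (Finset.mem_sdiff.1 hm).1
    have hmQ := (Finset.mem_sdiff.1 hm).2
    refine ⟨insert m Q, Finset.insert_subset hmS hQS, ?_, ?_⟩
    · rw [Finset.card_insert_of_notMem hmQ, hQk]
    · intro q hq s hs
      rw [Finset.mem_sdiff, Finset.mem_insert, not_or] at hs
      have hs' : s ∈ S \ Q := Finset.mem_sdiff.2 ⟨hs.1, hs.2.2⟩
      rcases Finset.mem_insert.1 hq with h | h
      · rw [h]
        exact lt_of_le_of_ne (hmax s hs') (hG s hs.1 m hmS hs.2.1).2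
      · exact hQ q h s hs'

end LSH
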