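import Pool.Agent.helper83.LS.Spec

/-! U3d of project ls (MP_60c1a7_co): path A. -/

set_option autoImplicit false

namespace LSH

theorem U3d_box (e : Edge) (w : Pt) (h : e.on w) :
    w.1 ∈ Set.uIcc e.a.1 e.b.1 ∧ w.2 ∈ Set.uIcc e.a.2 e.b.2 := by
  rcases h with ⟨_, ⟨h1, h2⟩ | ⟨h1, h2⟩⟩ | ⟨_, ⟨h1, h2⟩ | ⟨h1, h2⟩⟩
  · exact ⟨h2, h1 ▸ Set.left_mem_uIcc⟩
  · exact ⟨h1 ▸ Set.right_mem_uIcc, h2⟩
  · exact ⟨h1 ▸ Set.left_mem_uIcc, h2⟩
  · exact ⟨h2, h1 ▸ Set.right_mem_uIcc⟩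

theorem U3d (hAU : AU_stmt) (hEE : EE_stmt) (hFA : FA_stmt) (hRL : RL1_stmt) : U3d_stmt := by
  intro t ht S p z T g hS hG hp hz hzl hpz hT hTt hTz hg hgz hgT hgt hTg
  have hun : LL (.un t) := hRL.2 t ht
  set S' : Finset Pt := (S.erase z).erase T with hS'
  have hTS : T ∈ S.erase z := Finset.mem_erase.2 ⟨hTz, hT⟩
  have hcard : S'.card = (BT.un t).size := by
    rw [hS', Finset.card_erase_of_mem hTS, Finset.card_erase_of_mem hz, hS]
    simp [BT.size]
  have hmem : ∀ s ∈ S', s ∈ S ∧ s ≠ z ∧ s ≠ T := by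
    intro s hs
    rw [hS', Finset.mem_erase, Finset.mem_erase] at hs
    exact ⟨hs.2.2, hs.2.1, hs.1⟩
  have hGm : ∀ a ∈ S, ∀ b ∈ S, a ≠ b → a.1 ≠ b.1 ∧ a.2 ≠ b.2 := fun a ha b hb hab =>
    hG a (Set.mem_insert_of_mem _ ha) b (Set.mem_insert_of_mem _ hb) hab
  have hG' : Gen (insert T (S' : Set Pt)) := by
    intro a ha b hb hab
    have h1 : ∀ c ∈ insert T (S' : Set Pt), c ∈ S := by
      intro c hc
      rcases Set.mem_insert_iff.1 hc with h | h
      · rw [h]; exact hT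
      · exact (hmem c h).1
    exact hGm a (h1 a ha) b (h1 b hb) hab
  have hlt : ∀ s ∈ S', s.2 < T.2 := fun s hs =>
    lt_of_le_of_ne (hTt s (hmem s hs).1) (hGm s (hmem s hs).1 T hT (hmem s hs).2.2).2
  obtain ⟨d, hd, hdr⟩ := (hFA (.un t) hun S' T hcard hG').2.2.2 hlt
  have hpts : d.pts = S'.val := hd.2.1
  have hroot : d.root ∈ S' := by
    have h1 := hEE.2.1 d
    rw [hpts] at h1
    exact h1
  have hgS' : g ∈ S' := by
    rw [hS', Finset.mem_erase, Finset.mem_erase]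
    exact ⟨hgT, hgz, hg⟩
  have hrg : d.root = g := by
    by_contra hne
    have h1 := hdr g hgS'
    have h2 := hgt d.root (hmem _ hroot).1 (hmem _ hroot).2.1 (hmem _ hroot).2.2
    exact (hGm d.root (hmem _ hroot).1 g hg hne).2 (le_antisymm h2 h1)
  have hzT1 : z.1 < T.1 := lt_of_le_of_ne (hzl T hT) (hGm z hz T hT (Ne.symm hTz)).1
  have hzT2 : z.2 < T.2 := lt_of_le_of_ne (hTt z hz) (hGm z hz T hT (Ne.symm hTz)).2
  have hpz1 : p.1 < z.1 := hp z hz
  have hz' : ∀ s ∈ S', z.1 < s.1 := fun s hs =>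
    lt_of_le_of_ne (hzl s (hmem s hs).1) (hGm z hz s (hmem s hs).1 (Ne.symm (hmem s hs).2.1)).1
  -- points on the edges of `d`
  have hed : ∀ e ∈ d.edges, ∀ w : Pt, e.on w → z.1 < w.1 ∧ w.2 < T.2 := by
    intro e he w hw
    obtain ⟨ha, hb⟩ := hEE.1 d e he
    rw [hpts] at ha hb
    have ha' : e.a ∈ S' := ha
    have hb' : e.b ∈ S' := hb
    obtain ⟨h1, h2⟩ := U3d_box e w hw
    rw [Set.mem_uIcc] at h1 h2
    have := hz' _ ha'
    have := hz' _ hb'
    have := hlt _ ha'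
    have := hlt _ hb'
    constructor
    · rcases h1 with h1 | h1 <;> linarith [h1.1]
    · rcases h2 with h2 | h2 <;> linarith [h2.2]
  -- points on the first edge
  have hE0 : ∀ w : Pt, (⟨p, z, true⟩ : Edge).on w → w.1 ≤ z.1 ∧ w.2 ≤ z.2 ∧
      (w.2 = z.2 → w = z) := by
    intro w hw
    rcases hw with ⟨_, ⟨h1, h2⟩ | ⟨h1, h2⟩⟩ | ⟨h0, _⟩
    · rw [Set.mem_uIcc] at h2
      simp only at h1 h2
      refine ⟨?_, ?_, ?_⟩
      · rcases h2 with h2 | h2 <;> linarith [h2.1, h2.2]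
      · linarith
      · intro h; exfalso; linarith
    · rw [Set.mem_uIcc] at h2
      simp only at h1 h2
      refine ⟨h1.le, ?_, ?_⟩
      · rcases h2 with h2 | h2 <;> linarith [h2.1, h2.2]
      · intro h; exact Prod.ext h1 h
    · simp at h0
  have hE1 : ∀ w : Pt, (⟨z, T, false⟩ : Edge).on w → (w.1 = z.1 ∨ w.2 = T.2) ∧ w.1 ≤ T.1 ∧
      z.2 ≤ w.2 ∧ (w.1 = T.1 → w = T) := by
    intro w hw
    rcases hw with ⟨h0, _⟩ | ⟨_, ⟨h1, h2⟩ | ⟨h1, h2⟩⟩
    · simp at h0
    · rw [Set.mem_uIcc] at h2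
      simp only at h1 h2
      refine ⟨Or.inl h1, ?_, ?_, ?_⟩
      · linarith
      · rcases h2 with h2 | h2 <;> linarith [h2.1, h2.2]
      · intro h; exfalso; linarith
    · rw [Set.mem_uIcc] at h2
      simp only at h1 h2
      refine ⟨Or.inr h1, ?_, ?_, ?_⟩
      · rcases h2 with h2 | h2 <;> linarith [h2.1, h2.2]
      · linarith
      · intro h; exact Prod.ext h h1
  have hE2 : ∀ w : Pt, (⟨T, d.root, true⟩ : Edge).on w → T.1 ≤ w.1 := by
    intro w hw
    have h1 := (U3d_box _ w hw).1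
    rw [Set.mem_uIcc, hrg] at h1
    simp only at h1
    rcases h1 with h1 | h1 <;> linarith [h1.1, h1.2]
  have hA1 : Att z false (.un (.un t)) (insert T S') (.un T true d) := by
    refine hAU z T false true (.un t) S' d hd ?_ ?_
    · rw [hS']; exact Finset.notMem_erase _ _
    · intro e he w hw1 hw2
      rcases List.mem_cons.1 he with h | h
      · rw [h] at hw2 ⊢
        have h1 := hE1 w hw1
        have h2 := hE2 w hw2
        have h3 : w = T := h1.2.2.2 (le_antisymm h1.2.1 h2)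
        exact ⟨Or.inr h3, Or.inl h3⟩
      · exfalso
        have h1 := hE1 w hw1
        have h2 := hed e h w hw2
        rcases h1.1 with h3 | h3 <;> linarith [h2.1, h2.2]
  have hA2 : Att p true (.un (.un (.un t))) (insert z (insert T S')) (.un z false (.un T true d)) := by
    refine hAU p z true false (.un (.un t)) (insert T S') (.un T true d) hA1 ?_ ?_
    · rw [Finset.mem_insert, hS', Finset.mem_erase, Finset.mem_erase]
      rintro (h | h)
      · exact hTz h.symm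
      · exact h.2.1 rfl
    · intro e he w hw1 hw2
      have h1 := hE0 w hw1
      rcases List.mem_cons.1 he with h | h
      · rw [h] at hw2 ⊢
        have h2 := hE1 w hw2
        have h3 : w = z := h1.2.2 (le_antisymm h1.2.1 h2.2.2.1)
        exact ⟨Or.inr h3, Or.inl h3⟩
      · exfalso
        rcases List.mem_cons.1 h with h | h
        · rw [h] at hw2
          have h2 := hE2 w hw2
          linarith [h1.1]
        · have h2 := hed e h w hw2
          linarith [h1.1, h2.1]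
  have hSS : insert z (insert T S') = S := by
    rw [hS', Finset.insert_erase hTS, Finset.insert_erase hz]
  rw [hSS] at hA2
  exact ⟨_, true, hA2, Or.inl rfl⟩

end LSH
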